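import Pool.Agent.Q231.OPNP

/-!
# Recognising graphs whose maximal open packings all have equal size is coNP-complete

`InClass (V, E)` says that `(V, E)` is a finite simple graph in which every maximal open packing has
the same cardinality.

The reduction is from SAT.  In the bipartite graph `G` constructed, the auxiliary graph `G*` has two
parts.  One of them is always well covered, because its vertices are partitioned into closed
neighbourhoods of simplicial vertices.  The other one consists of a triangle
(`v`, `not v`, no value) for every variable `v` and of a clique formed by the clauses and by one
special vertex adjacent to all literals; a clause is adjacent to its literals.  Its maximal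
independent sets correspond to the truth assignments of some of the variables, and they meet the
clique unless the assignment satisfies all clauses.
-/

set_option autoImplicit false

namespace Pool.Agent.Results.MP_563097_lc.OpenPackingCoNPComplete

open Pool.Agent.NPC Pool.Agent.NPC.H634R2 Pool.Agent.Q231.OP

/-- **Recognising the graphs all of whose maximal open packings have the same cardinality is
coNP-complete**: the problem is in `coNP` and `coNP`-hard. It stays `coNP`-hard for bipartite graphs
(third part). In particular it is solvable in polynomial time if and only if `P = NP` (last part). -/
theorem result :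
    InCoNPP InClass ∧ CoNPHardP InClass ∧
    (∀ L : Set (List Bool), InCoNP L → ∃ f : List Bool → List ℕ × List (ℕ × ℕ),
      PolyTime (fun x => bits (f x)) ∧ (∀ x, IsGraph (f x).1 (f x).2 ∧ Bip (f x).2) ∧
      ∀ x, x ∈ L ↔ InClass (f x)) ∧
    (InPP InClass ↔ ∀ L : Set (List Bool), InNP L → InP L) := by
  have hc : CoNPHardP InClass := hardPr.toCoNPHardP
  refine ⟨inCoNP, hc, fun L hL => ?_, Pool.Agent.Q231.Gr.coNP_collapse inCoNP hc⟩
  obtain ⟨f, hf, h1, h2⟩ := hardPr _ hL
  refine ⟨f, PC.toPolyTime hf, h1, fun x => ?_⟩
  have := h2 x
  rw [Set.mem_compl_iff] at this
  exact not_iff_not.1 this

end Pool.Agent.Results.MP_563097_lc.OpenPackingCoNPComplete
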